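import Mathlib
import Pool.Agent.Helper40.Lin.Defs

/-! Module FINP. -/

set_option autoImplicit false

namespace Pool.Agent.Helper81.Lin

universe u

/-- a finitely generated subfield of the algebraic closure of `ℚ_p` is contained in a local field -/
theorem FINP (p : ℕ) [Fact p.Prime] {F : Type u} [Field F] (S : Finset F)
    (hS : Subfield.closure (S : Set F) = ⊤) (σ : F →+* PadicAlgCl p) :
    ∃ (k : Type) (_ : NontriviallyNormedField k) (_ : ProperSpace k) (σ' : F →+* k),
      ∀ x, ‖σ' x‖ = ‖σ x‖ := by
  let L : IntermediateField ℚ_[p] (PadicAlgCl p) := IntermediateField.adjoin ℚ_[p] (σ '' S)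
  have hfd : FiniteDimensional ℚ_[p] L := by
    have : Finite (σ '' (S : Set F)) := (S.finite_toSet.image σ).to_subtype
    apply IntermediateField.finiteDimensional_adjoin
    intro x _
    exact Algebra.IsIntegral.isIntegral x
  have hmem : ∀ x, σ x ∈ L := by
    have h1 : Subfield.closure (S : Set F) ≤ L.toSubfield.comap σ := by
      rw [Subfield.closure_le]
      intro x hx
      exact IntermediateField.subset_adjoin _ _ ⟨x, hx, rfl⟩
    intro x
    have h2 : x ∈ Subfield.closure (S : Set F) := by rw [hS]; trivial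
    exact h1 h2
  let nf : NormedField L := inferInstance
  have hnorm : ∀ x : L, ‖x‖ = ‖(x : PadicAlgCl p)‖ := fun x => rfl
  have halg : ∀ x : ℚ_[p], ‖algebraMap ℚ_[p] L x‖ = ‖x‖ := by
    intro x
    rw [hnorm]
    exact PadicAlgCl.norm_extends p x
  let nnf : NontriviallyNormedField L :=
    { nf with
      non_trivial := by
        obtain ⟨y, hy⟩ := NormedField.exists_one_lt_norm ℚ_[p]
        exact ⟨algebraMap ℚ_[p] L y, by rw [halg]; exact hy⟩ }
  let ns : NormedSpace ℚ_[p] L :=
    { norm_smul_le := by
        intro a b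
        rw [Algebra.smul_def, norm_mul, halg] }
  have hprop : ProperSpace L := FiniteDimensional.proper ℚ_[p] L
  refine ⟨L, nnf, hprop, σ.codRestrict L.toSubfield hmem, ?_⟩
  intro x
  rfl

end Pool.Agent.Helper81.Lin
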