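import Mathlib
import Pool.Agent.Helper40.Lin.Defs

/-! Module PADIC. -/

set_option autoImplicit false

open scoped Polynomial

namespace Pool.Agent.Helper81.Lin

/-- the closed unit ball -/
def padicBall (p : ℕ) [Fact p.Prime] : Subring (PadicAlgCl p) where
  carrier := {x | ‖x‖ ≤ 1}
  mul_mem' := by
    intro a b ha hb
    simp only [Set.mem_ofPred_eq] at *
    rw [norm_mul]
    exact mul_le_one₀ ha (norm_nonneg _) hb
  one_mem' := by simp
  add_mem' := by
    intro a b ha hb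
    simp only [Set.mem_ofPred_eq] at *
    exact le_trans (IsUltrametricDist.norm_add_le_max a b) (max_le ha hb)
  zero_mem' := by simp
  neg_mem' := by
    intro a ha
    simp only [Set.mem_ofPred_eq] at *
    rwa [norm_neg]

/-- a nonintegral algebraic number has a large p-adic conjugate -/
theorem PADIC (f : ℚ[X]) (hf : f.Monic) (hint : ∃ i, ∀ z : ℤ, f.coeff i ≠ z) :
    ∃ (p : ℕ) (_ : Fact p.Prime) (β : PadicAlgCl p), Polynomial.aeval β f = 0 ∧ 1 < ‖β‖ := by
  obtain ⟨i, hi⟩ := hint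
  have hden : (f.coeff i).den ≠ 1 := by
    intro h
    apply hi (f.coeff i).num
    exact ((Rat.den_eq_one_iff _).1 h).symm
  obtain ⟨p, hp, hpd⟩ := Nat.exists_prime_and_dvd hden
  have : Fact p.Prime := ⟨hp⟩
  refine ⟨p, ⟨hp⟩, ?_⟩
  by_contra hcon
  push Not at hcon
  set g := f.map (algebraMap ℚ (PadicAlgCl p)) with hg
  have hgm : g.Monic := hf.map _
  have hsp : g.Splits := IsAlgClosed.splits g
  have hprod := Polynomial.Splits.eq_prod_roots_of_monic hsp hgm
  have hlift : g ∈ Polynomial.lifts (padicBall p).subtype := by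
    rw [hprod]
    apply Subsemiring.multiset_prod_mem
    intro q hq
    obtain ⟨a, ha, rfl⟩ := Multiset.mem_map.1 hq
    have ha1 : ‖a‖ ≤ 1 := by
      apply hcon
      have h1 := Polynomial.isRoot_of_mem_roots ha
      rw [Polynomial.IsRoot, hg, Polynomial.eval_map] at h1
      rw [Polynomial.aeval_def]
      exact h1
    have h2 : Polynomial.X - Polynomial.C a ∈ Polynomial.liftsRing (padicBall p).subtype := by
      apply Subring.sub_mem
      · rw [← Polynomial.lifts_iff_liftsRing]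
        exact Polynomial.X_mem_lifts _
      · rw [← Polynomial.lifts_iff_liftsRing]
        exact Polynomial.C'_mem_lifts ⟨⟨a, ha1⟩, rfl⟩
    rwa [Polynomial.lifts_iff_liftsRing]
  obtain ⟨y, hy⟩ := (Polynomial.lifts_iff_coeff_lifts _).1 hlift i
  have h3 : ‖g.coeff i‖ ≤ 1 := by
    rw [← hy]
    exact y.2
  have h4 : g.coeff i = ((((f.coeff i : ℚ) : ℚ_[p])) : PadicAlgCl p) := by
    rw [hg, Polynomial.coeff_map, eq_ratCast, map_ratCast]
  rw [h4, PadicAlgCl.norm_extends] at h3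
  -- contradiction
  set x := f.coeff i with hx
  have h5 : (x : ℚ_[p]) * ((x.den : ℤ) : ℚ_[p]) = ((x.num : ℤ) : ℚ_[p]) := by
    have := Rat.mul_den_eq_num x
    exact_mod_cast congrArg (fun t : ℚ => (t : ℚ_[p])) this
  have h6 : ‖((x.den : ℤ) : ℚ_[p])‖ < 1 := by
    rw [Padic.norm_intCast_lt_one_iff]
    exact_mod_cast hpd
  have h7 : ‖((x.num : ℤ) : ℚ_[p])‖ < 1 := by
    rw [← h5, norm_mul]
    calc ‖(x : ℚ_[p])‖ * ‖((x.den : ℤ) : ℚ_[p])‖ ≤ 1 * ‖((x.den : ℤ) : ℚ_[p])‖ :=
          mul_le_mul_of_nonneg_right h3 (norm_nonneg _)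
      _ < 1 := by rw [one_mul]; exact h6
  rw [Padic.norm_intCast_lt_one_iff] at h7
  have h8 : p ∣ x.num.natAbs := Int.natCast_dvd.1 h7
  have h9 := Nat.Coprime.eq_one_of_dvd (Nat.Coprime.coprime_dvd_left h8 x.reduced) hpd
  exact hp.one_lt.ne' h9

end Pool.Agent.Helper81.Lin
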