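import Mathlib
import Pool.Agent.Helper40.Lin.Defs
import Pool.Agent.Helper7.Lin.EXT
import Pool.Agent.Helper80.Lin.KRON
import Pool.Agent.Helper81.Lin.PADIC
import Pool.Agent.Helper81.Lin.FINP

/-! Module TITS. -/

set_option autoImplicit false

namespace Pool.Agent.Helper81.Lin

open scoped Polynomial

universe u

/-- a transcendental number off the unit circle -/
theorem tits_transc : ∃ β : ℂ, Transcendental ℚ β ∧ ‖β‖ ≠ 1 := by
  have h1 : Transcendental ℤ (liouvilleNumber (2 : ℝ)) := by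
    exact_mod_cast transcendental_liouvilleNumber (le_refl 2)
  have h2 : Transcendental ℚ (liouvilleNumber (2 : ℝ)) := by
    intro h
    exact h1 ((IsFractionRing.isAlgebraic_iff ℤ ℚ ℝ).2 h)
  have h3 : Transcendental ℚ (((liouvilleNumber (2 : ℝ)) : ℝ) : ℂ) := by
    intro h
    apply h2
    have h4 : IsAlgebraic ℚ (algebraMap ℝ ℂ (liouvilleNumber (2 : ℝ))) := h
    exact (isAlgebraic_algebraMap_iff (algebraMap ℝ ℂ).injective).1 h4
  set β : ℂ := (((liouvilleNumber (2 : ℝ)) : ℝ) : ℂ)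
  by_cases hβ : ‖β‖ = 1
  · refine ⟨2 * β, ?_, ?_⟩
    · intro h
      apply h3
      have h5 : β = algebraMap ℚ ℂ (1 / 2) * (2 * β) := by
        rw [eq_ratCast]; push_cast; ring
      rw [h5]
      exact (isAlgebraic_algebraMap _).mul h
    · rw [norm_mul, hβ]
      norm_num
  · exact ⟨β, h3, hβ⟩

theorem tits_unc : Uncountable ℂ := by
  rw [← Cardinal.aleph0_lt_mk_iff, Cardinal.mk_complex]
  exact Cardinal.aleph0_lt_continuum

/-- Tits's lemma -/
theorem TITS {F : Type u} [Field F] [CharZero F] (S : Finset F)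
    (hS : Subfield.closure (S : Set F) = ⊤) (ρ : F) (h0 : ρ ≠ 0)
    (hroot : ∀ n : ℕ, 1 ≤ n → ρ ^ n ≠ 1) :
    ∃ (k : Type) (_ : NontriviallyNormedField k) (_ : ProperSpace k) (σ : F →+* k),
      ‖σ ρ‖ ≠ 1 := by
  have hcount : Countable F := by
    have h1 : Cardinal.mk (Subfield.closure (S : Set F)) ≤ Cardinal.aleph0 := by
      refine le_trans (Subfield.cardinalMk_closure_le_max _) ?_
      apply max_le _ le_rfl
      exact Cardinal.mk_le_aleph0_iff.2 (S.finite_toSet.countable.to_subtype)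
    rw [hS] at h1
    have h2 : Countable (⊤ : Subfield F) := Cardinal.mk_le_aleph0_iff.1 h1
    have h3 : Function.Injective (fun x : F => (⟨x, trivial⟩ : (⊤ : Subfield F))) := by
      intro a b hab
      exact congrArg Subtype.val hab
    exact h3.countable
  have huncC : Uncountable ℂ := tits_unc
  by_cases htr : Transcendental ℚ ρ
  · obtain ⟨β, hβ, hβ1⟩ := tits_transc
    obtain ⟨σ, hσ⟩ := Pool.Agent.Helper7.Lin.EXT ρ β (Or.inl ⟨htr, hβ⟩)
    exact ⟨ℂ, inferInstance, inferInstance, σ, by rw [hσ]; exact hβ1⟩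
  · have halg : IsAlgebraic ℚ ρ := not_not.1 htr
    by_cases hint : IsIntegral ℤ ρ
    · obtain ⟨β, hβ, hβ1⟩ := Pool.Agent.Helper80.Lin.KRON ρ hint h0 hroot
      obtain ⟨σ, hσ⟩ := Pool.Agent.Helper7.Lin.EXT ρ β (Or.inr ⟨halg, hβ⟩)
      exact ⟨ℂ, inferInstance, inferInstance, σ, by rw [hσ]; exact hβ1⟩
    · have hnon : ∃ i, ∀ z : ℤ, (minpoly ℚ ρ).coeff i ≠ z := by
        by_contra hcon
        push Not at hcon
        apply hint
        have hl : minpoly ℚ ρ ∈ Polynomial.lifts (Int.castRingHom ℚ) := by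
          rw [Polynomial.lifts_iff_coeff_lifts]
          intro i
          obtain ⟨z, hz⟩ := hcon i
          exact ⟨z, by rw [hz]; rfl⟩
        obtain ⟨g, hg, _, hgm⟩ := Polynomial.lifts_and_natDegree_eq_and_monic hl
          (minpoly.monic halg.isIntegral)
        refine ⟨g, hgm, ?_⟩
        have h1 : Polynomial.aeval ρ (minpoly ℚ ρ) = 0 := minpoly.aeval ℚ ρ
        rw [← hg, Polynomial.aeval_def, Polynomial.eval₂_map] at h1
        rw [← h1]
        congr 1
        exact RingHom.ext_int _ _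
      obtain ⟨p, hp, β, hβ, hβ1⟩ := PADIC (minpoly ℚ ρ) (minpoly.monic halg.isIntegral) hnon
      have hunc : Uncountable (PadicAlgCl p) := by
        have h1 : Uncountable ℚ_[p] := by
          rw [← Cardinal.aleph0_lt_mk_iff]
          exact lt_of_lt_of_le Cardinal.aleph0_lt_continuum
            (continuum_le_cardinal_of_nontriviallyNormedField ℚ_[p])
        exact (algebraMap ℚ_[p] (PadicAlgCl p)).injective.uncountable
      obtain ⟨σ, hσ⟩ := Pool.Agent.Helper7.Lin.EXT ρ β (Or.inr ⟨halg, hβ⟩)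
      obtain ⟨k, h1, h2, σ', hσ'⟩ := FINP p S hS σ
      exact ⟨k, h1, h2, σ', by rw [hσ', hσ]; exact hβ1.ne'⟩

end Pool.Agent.Helper81.Lin
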